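import Pool.Agent.H87.HX.Lef
import Pool.Agent.H87.HW.Pal

/-!
# Project HX, part PAL (helper87)
-/

set_option autoImplicit false
open Classical Finset

namespace Pool.Agent.H87.HX

open Pool.Agent.H21.HV (nb Prp TotLab)
open Pool.Agent.H39.HW (sm Av ln blk lab Reg)
open Pool.Agent.H65.HW (cell S_BLB)
open Pool.Agent.H87.HW (filter_inst card_cells cell_rem blk_card)
open Pool.Agent.H65.HX

/-- the remaining edges -/
def remG {V : Type} (G T L : SimpleGraph V) (s : Dat) (cl : V → ℕ) : SimpleGraph V where
  Adj u v := Rem G T L s cl u v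
  symm := ⟨fun u v h => ⟨h.1.symm, fun h' => h.2.1 h'.symm, fun h' => h.2.2.1 h'.symm,
    fun h' => h.2.2.2.1 h'.symm, h.2.2.2.2.symm⟩⟩
  loopless := ⟨fun u h => h.1.ne rfl⟩

theorem t_PAL (hB : S_BLB) : S_PAL := by
  intro V _ G D p s cl x f T c X bX L hC _ _ hT hX hL
  have hs := hC.sch
  have hspec : ∀ u, s.B ≤ cl u → cl u - s.B < s.m := by
    intro u hu
    rcases hC.val u with h | h
    · have := lt_B hs h
      omega
    · omega
  have hcls : ∀ a β, β ∈ s.cls p a → β < s.B := by
    intro a β h
    unfold Dat.cls at h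
    have h1 := (mem_sdiff.mp h).1
    have h2 := (mem_erase.mp h1).2
    exact mem_range.mp (mem_filter.mp h2).1
  -- a row has few neighbours of every vertex
  have hsmall : ∀ u, ∀ a ∈ s.R, ∀ β < s.B, nb G (cell cl a) u ≤ ln s.st β := by
    intro u a ha β hβ
    have h1 := (abs_le.mp (hC.row u a ha)).2
    have h2 := hs.lnl β hβ
    have hD : (0 : ℝ) ≤ D := Nat.cast_nonneg _
    have h3 : (nb G (cell cl a) u : ℝ) ≤ ln s.st β := by
      have h4 : 0 ≤ s.δ * D := mul_nonneg hs.dpos.le hD
      nlinarith
    exact_mod_cast h3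
  obtain ⟨right, hright⟩ : ∃ right : ℕ → ℕ → Prop, ∀ β a, right β a ↔ s.lf β a = false :=
    ⟨_, fun _ _ => Iff.rfl⟩
  let bb : V → V → ℕ := fun u v =>
    if cl u ∈ s.R ∧ cl v ∈ s.R then be s cl X bX u v
    else if cl u ∈ s.R then s.φ (cl v - s.B) (cl u)
    else if cl v ∈ s.R then s.φ (cl u - s.B) (cl v)
    else 0
  have be0 : ∀ u v, cl u ∈ s.R → cl v ∈ s.R → bb u v = be s cl X bX u v := by
    intro u v h1 h2
    simp only [bb]
    rw [if_pos ⟨h1, h2⟩]
  have be1 : ∀ u v, cl u ∈ s.R → s.B ≤ cl v → bb u v = s.φ (cl v - s.B) (cl u) := by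
    intro u v h1 h2
    have h3 : cl v ∉ s.R := by
      intro h3
      have := lt_B hs h3
      omega
    simp only [bb]
    rw [if_neg (fun h => h3 h.2), if_pos h1]
  have be2 : ∀ u v, cl v ∈ s.R → s.B ≤ cl u → bb u v = s.φ (cl u - s.B) (cl v) := by
    intro u v h1 h2
    have h3 : cl u ∉ s.R := by
      intro h3
      have := lt_B hs h3
      omega
    simp only [bb]
    rw [if_neg (fun h => h3 h.1), if_neg h3, if_pos h1]
  have Xsym : ∀ u v, be s cl X bX u v = be s cl X bX v u := by
    intro u v
    unfold be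
    by_cases h : X.Adj u v
    · rw [if_pos h, if_pos h.symm, hX.sym]
    · rw [if_neg h, if_neg (fun h' => h h'.symm), sm_comm]
  have besym : ∀ u v, bb u v = bb v u := by
    intro u v
    by_cases h1 : cl u ∈ s.R
    · by_cases h2 : cl v ∈ s.R
      · rw [be0 u v h1 h2, be0 v u h2 h1, Xsym]
      · rcases hC.val v with h | h
        · exact absurd h h2
        · rw [be1 u v h1 h.1, be2 v u h1 h.1]
    · rcases hC.val u with h | h
      · exact absurd h h1
      · by_cases h2 : cl v ∈ s.R
        · rw [be2 u v h2 h.1, be1 v u h2 h.1]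
        · simp only [bb]
          rw [if_neg (fun h => h1 h.1), if_neg h1, if_neg h2, if_neg (fun h => h2 h.1),
            if_neg h2, if_neg h1]
  let P : ℕ → Finset V := fun β => univ.filter (fun v => (cl v ∈ s.R ∧ ¬ right β (cl v)) ∨
    (s.B ≤ cl v ∧ ∃ a ∈ s.R, s.φ (cl v - s.B) a = β ∧ right β a))
  let Q : ℕ → Finset V := fun β => univ.filter (fun v => (cl v ∈ s.R ∧ right β (cl v)) ∨
    (s.B ≤ cl v ∧ ∃ a ∈ s.R, s.φ (cl v - s.B) a = β ∧ ¬ right β a))
  have hPm : ∀ β v, v ∈ P β ↔ ((cl v ∈ s.R ∧ ¬ right β (cl v)) ∨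
    (s.B ≤ cl v ∧ ∃ a ∈ s.R, s.φ (cl v - s.B) a = β ∧ right β a)) := by
    intro β v
    simp only [P, mem_filter, mem_univ, true_and]
  have hQm : ∀ β v, v ∈ Q β ↔ ((cl v ∈ s.R ∧ right β (cl v)) ∨
    (s.B ≤ cl v ∧ ∃ a ∈ s.R, s.φ (cl v - s.B) a = β ∧ ¬ right β a)) := by
    intro β v
    simp only [Q, mem_filter, mem_univ, true_and]
  have H1 : ∀ β, Disjoint (P β) (Q β) := by
    intro β
    rw [Finset.disjoint_left]
    intro v h1 h2
    rw [hPm] at h1
    rw [hQm] at h2
    rcases h1 with ⟨h1, h1'⟩ | ⟨h1, a, ha, hφ, hr⟩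
    · rcases h2 with ⟨h2, h2'⟩ | ⟨h2, -⟩
      · exact h1' h2'
      · have := lt_B hs h1
        omega
    · rcases h2 with ⟨h2, h2'⟩ | ⟨h2, a', ha', hφ', hr'⟩
      · have := lt_B hs h2
        omega
      · have : a = a' := hs.ph2 _ (hspec v h1) a ha a' ha' (hφ.trans hφ'.symm)
        rw [this] at hr
        exact hr' hr
  -- two rows
  have hrows : ∀ u v, cl u ∈ s.R → cl v ∈ s.R → cl u ≠ cl v →
      (¬ right (be s cl X bX u v) (cl u) ∧ right (be s cl X bX u v) (cl v)) ∨
      (right (be s cl X bX u v) (cl u) ∧ ¬ right (be s cl X bX u v) (cl v)) := by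
    intro u v hu hv hne
    rw [hright, hright]
    by_cases h : X.Adj u v
    · have e : be s cl X bX u v = bX u v := by unfold be; rw [if_pos h]
      rw [e]
      rcases hX.sup u v h with ⟨h1, τ, h2⟩ | ⟨⟨τ, h1⟩, h2⟩
      · have h3 := hs.or2 τ _ (hX.blo u v τ h h1 h2)
        left
        rw [h3.1 _ h1, h3.2 _ h2]
        simp
      · have h3 := hs.or2 τ _ (hX.blo v u τ h.symm h2 h1)
        rw [hX.sym v u] at h3
        right
        rw [h3.1 _ h2, h3.2 _ h1]
        simp
    · have e : be s cl X bX u v = sm s.B (cl u) (cl v) := by unfold be; rw [if_neg h]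
      have h3 := hs.or1 (be s cl X bX u v) _ hu _ hv hne e.symm
      cases h4 : s.lf (be s cl X bX u v) (cl u) <;> cases h5 : s.lf (be s cl X bX u v) (cl v) <;>
        simp_all
  have hbcls : ∀ u v, cl u ∈ s.R → cl v ∈ s.R → cl u ≠ cl v →
      be s cl X bX u v ∈ s.cls p (cl u) := by
    intro u v hu hv hne
    by_cases h : X.Adj u v
    · have e : be s cl X bX u v = bX u v := by unfold be; rw [if_pos h]
      rw [e]
      rcases hX.sup u v h with ⟨h1, τ, h2⟩ | ⟨⟨τ, h1⟩, h2⟩
      · exact (hs.xc1 τ _ (hX.blo u v τ h h1 h2) _ h1).1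
      · rw [hX.sym u v]
        exact hs.xc2 τ _ (hX.blo v u τ h.symm h2 h1) _ h1
    · have e : be s cl X bX u v = sm s.B (cl u) (cl v) := by unfold be; rw [if_neg h]
      rw [e]
      exact sm_mem_cls hs hu hv hne
  have H2 : ∀ u v, (remG G T L s cl).Adj u v →
      (u ∈ P (bb u v) ∧ v ∈ Q (bb u v)) ∨ (u ∈ Q (bb u v) ∧ v ∈ P (bb u v)) := by
    intro u v huv
    obtain ⟨-, -, -, hne, hor⟩ := (show Rem G T L s cl u v from huv)
    by_cases h1 : cl u ∈ s.R
    · by_cases h2 : cl v ∈ s.R
      · rw [be0 u v h1 h2]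
        rcases hrows u v h1 h2 hne with ⟨r1, r2⟩ | ⟨r1, r2⟩
        · left
          exact ⟨(hPm _ _).mpr (Or.inl ⟨h1, r1⟩), (hQm _ _).mpr (Or.inl ⟨h2, r2⟩)⟩
        · right
          exact ⟨(hQm _ _).mpr (Or.inl ⟨h1, r1⟩), (hPm _ _).mpr (Or.inl ⟨h2, r2⟩)⟩
      · rcases hC.val v with h | h
        · exact absurd h h2
        · rw [be1 u v h1 h.1]
          by_cases hr : right (s.φ (cl v - s.B) (cl u)) (cl u)
          · right
            exact ⟨(hQm _ _).mpr (Or.inl ⟨h1, hr⟩), (hPm _ _).mpr (Or.inr ⟨h.1, cl u, h1, rfl, hr⟩)⟩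
          · left
            exact ⟨(hPm _ _).mpr (Or.inl ⟨h1, hr⟩), (hQm _ _).mpr (Or.inr ⟨h.1, cl u, h1, rfl, hr⟩)⟩
    · have h2 : cl v ∈ s.R := hor.resolve_left h1
      rcases hC.val u with h | h
      · exact absurd h h1
      · rw [be2 u v h2 h.1]
        by_cases hr : right (s.φ (cl u - s.B) (cl v)) (cl v)
        · left
          exact ⟨(hPm _ _).mpr (Or.inr ⟨h.1, cl v, h2, rfl, hr⟩), (hQm _ _).mpr (Or.inl ⟨h2, hr⟩)⟩
        · right
          exact ⟨(hQm _ _).mpr (Or.inr ⟨h.1, cl v, h2, rfl, hr⟩), (hPm _ _).mpr (Or.inl ⟨h2, hr⟩)⟩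
  have H3 : ∀ (β : ℕ) u, (univ.filter (fun v => (remG G T L s cl).Adj u v ∧ bb u v = β)).card ≤
      (blk s.st β).card := by
    intro β u
    rw [blk_card]
    by_cases hne : ∃ v, (remG G T L s cl).Adj u v ∧ bb u v = β
    · obtain ⟨v0, hv0, hb0⟩ := hne
      obtain ⟨-, -, -, hne0, hor0⟩ := (show Rem G T L s cl u v0 from hv0)
      rcases hC.val u with hu | hu
      · -- `u` in a row
        have hA1 : (univ.filter (fun v => ((remG G T L s cl).Adj u v ∧ bb u v = β) ∧
            cl v ∈ s.R)).card ≤ rz G s cl X bX u β := by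
          unfold rz
          apply Finset.card_le_card
          intro v hv
          obtain ⟨⟨h1, h2⟩, h3⟩ := (mem_filter.mp hv).2
          obtain ⟨hg, -, -, hne', -⟩ := (show Rem G T L s cl u v from h1)
          rw [be0 u v hu h3] at h2
          exact mem_filter.mpr ⟨mem_univ _, hg, h3, fun h => hne' h.symm, h2⟩
        have hsplit : (univ.filter (fun v => (remG G T L s cl).Adj u v ∧ bb u v = β)).card ≤
            (univ.filter (fun v => ((remG G T L s cl).Adj u v ∧ bb u v = β) ∧
              cl v ∈ s.R)).card +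
            (univ.filter (fun v => ((remG G T L s cl).Adj u v ∧ bb u v = β) ∧
              s.B ≤ cl v)).card := by
          refine le_trans (Finset.card_le_card ?_) (Finset.card_union_le _ _)
          intro v hv
          have h1 := (mem_filter.mp hv).2
          rw [mem_union]
          rcases hC.val v with h | h
          · left
            exact mem_filter.mpr ⟨mem_univ _, h1, h⟩
          · right
            exact mem_filter.mpr ⟨mem_univ _, h1, h.1⟩
        by_cases hcl : β ∈ s.cls p (cl u)
        · have hA2 : (univ.filter (fun v => ((remG G T L s cl).Adj u v ∧ bb u v = β) ∧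
              s.B ≤ cl v)).card ≤ pz G s cl X bX u β := by
            have h1 := card_cells cl
              (((range s.m).filter (fun y => s.φ y (cl u) = β)).image (fun y => s.B + y))
              (fun v => ((remG G T L s cl).Adj u v ∧ bb u v = β) ∧ s.B ≤ cl v)
              (fun v => G.Adj u v ∧ ¬ T.Adj u v ∧ ¬ L.Adj u v) (by
                rintro v ⟨⟨q1, q2⟩, q3⟩
                obtain ⟨hg, ht, hl, -, -⟩ := (show Rem G T L s cl u v from q1)
                rw [be1 u v hu q3] at q2
                refine ⟨mem_image.mpr ⟨cl v - s.B, mem_filter.mpr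
                  ⟨mem_range.mpr (hspec v q3), q2⟩, by omega⟩, hg, ht, hl⟩)
            rw [Finset.sum_image (fun a _ b _ hab => by
              have : s.B + a = s.B + b := hab
              omega)] at h1
            have h2 := hL.ser u hu β hcl
            have h3 : ∑ y ∈ (range s.m).filter (fun y => s.φ y (cl u) = β),
                ((cell cl (s.B + y)).filter
                  (fun v => G.Adj u v ∧ ¬ T.Adj u v ∧ ¬ L.Adj u v)).card +
                ∑ y ∈ (range s.m).filter (fun y => s.φ y (cl u) = β),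
                  nb L (cell cl (s.B + y)) u ≤
                ∑ y ∈ (range s.m).filter (fun y => s.φ y (cl u) = β), Nz G T s cl u y := by
              rw [← Finset.sum_add_distrib]
              apply Finset.sum_le_sum
              intro y _
              have := cell_rem G T L hT.le hL.le hL.dis (cell cl (s.B + y)) u
              unfold Nz
              omega
            omega
          have hrz := (hX.tol u hu β hcl).1
          have h5 : pz G s cl X bX u β = ln s.st β - rz G s cl X bX u β := rfl
          omega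
        · have hA2 : (univ.filter (fun v => ((remG G T L s cl).Adj u v ∧ bb u v = β) ∧
              s.B ≤ cl v)).card = 0 := by
            rw [Finset.card_eq_zero, Finset.filter_eq_empty_iff]
            rintro v _ ⟨⟨q1, q2⟩, q3⟩
            apply hcl
            rw [be1 u v hu q3] at q2
            rw [← q2]
            exact hs.ph1 _ (hspec v q3) _ hu
          have hA3 : (univ.filter (fun v => ((remG G T L s cl).Adj u v ∧ bb u v = β) ∧
              cl v ∈ s.R)).card = 0 := by
            rw [Finset.card_eq_zero, Finset.filter_eq_empty_iff]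
            rintro v _ ⟨⟨q1, q2⟩, q3⟩
            apply hcl
            rw [be0 u v hu q3] at q2
            rw [← q2]
            exact hbcls u v hu q3 (show Rem G T L s cl u v from q1).2.2.2.1
          omega
      · -- `u` special
        have hrow : ∀ v, (remG G T L s cl).Adj u v → cl v ∈ s.R := by
          intro v hv
          obtain ⟨-, -, -, -, hor⟩ := (show Rem G T L s cl u v from hv)
          rcases hor with h | h
          · have := lt_B hs h
            omega
          · exact h
        have hv0R := hrow v0 hv0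
        rw [be2 u v0 hv0R hu.1] at hb0
        have hβB : β < s.B := by
          rw [← hb0]
          exact hcls _ _ (hs.ph1 _ (hspec u hu.1) _ hv0R)
        refine le_trans (card_cells cl {cl v0} _ (fun v => G.Adj u v) ?_) ?_
        · rintro v ⟨q1, q2⟩
          have hvR := hrow v q1
          rw [be2 u v hvR hu.1] at q2
          refine ⟨?_, (show Rem G T L s cl u v from q1).1⟩
          rw [mem_singleton]
          exact hs.ph2 _ (hspec u hu.1) _ hvR _ hv0R (q2.trans hb0.symm)
        · rw [Finset.sum_singleton]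
          exact hsmall u _ hv0R β hβB
    · have : (univ.filter (fun v => (remG G T L s cl).Adj u v ∧ bb u v = β)) = ∅ := by
        rw [Finset.filter_eq_empty_iff]
        intro v _ hv
        exact hne ⟨v, hv⟩
      rw [this]
      simp
  have H4 : ∀ u v w, (remG G T L s cl).Adj u v → (remG G T L s cl).Adj u w → bb u v ≠ bb u w →
      Disjoint (blk s.st (bb u v)) (blk s.st (bb u w)) := fun u v w _ _ h => blk_disj hs.stm h
  obtain ⟨g, g1, g2, g3⟩ := hB V (remG G T L s cl) ℕ bb (blk s.st) P Q besym H1 H2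
    (fun i u => filter_inst (H3 i u)) H4
  refine ⟨g, g1, ?_, ?_, ?_⟩
  · intro u v huv hu hv
    have := g2 u v huv
    rw [be0 u v hu hv] at this
    exact this
  · intro z u hzu hz hu
    have := g2 z u hzu
    rw [be1 z u hz hu] at this
    exact this
  · exact g3

end Pool.Agent.H87.HX
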