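import Pool.Agent.H65.HX.GBas
import Pool.Agent.H87.HW.Blb

/-!
# Project HX, part LEF (helper87)
-/

set_option autoImplicit false
open Classical Finset

namespace Pool.Agent.H87.HX

open Pool.Agent.H21.HV (nb Prp TotLab)
open Pool.Agent.H39.HW (sm Av ln blk lab Reg)
open Pool.Agent.H65.HW (cell S_BLB)
open Pool.Agent.H87.HW (filter_inst card_cells)
open Pool.Agent.H65.HX

theorem lt_B {D p : ℕ} {s : Dat} (h : Sch D p s) {a : ℕ} (ha : a ∈ s.R) : a < s.B := by
  have := (h.hR a ha).2
  omega

theorem t_LEF (hB : S_BLB) : S_LEF := by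
  intro V _ G T D p s cl X bX L hC hL
  have hs := hC.sch
  have hmono := hs.stm
  let be : V → V → ℕ × Finset ℕ := fun u v =>
    if cl u ∈ s.R ∧ s.B ≤ cl v then
      (s.part (cl v - s.B), s.S (s.part (cl v - s.B)) (cl u))
    else if cl v ∈ s.R ∧ s.B ≤ cl u then
      (s.part (cl u - s.B), s.S (s.part (cl u - s.B)) (cl v))
    else (0, ∅)
  have be1 : ∀ u v, cl u ∈ s.R → s.B ≤ cl v →
      be u v = (s.part (cl v - s.B), s.S (s.part (cl v - s.B)) (cl u)) := by
    intro u v h1 h2
    simp only [be]
    rw [if_pos ⟨h1, h2⟩]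
  have be2 : ∀ u v, cl v ∈ s.R → s.B ≤ cl u →
      be u v = (s.part (cl u - s.B), s.S (s.part (cl u - s.B)) (cl v)) := by
    intro u v h1 h2
    simp only [be]
    rw [if_neg, if_pos ⟨h1, h2⟩]
    rintro ⟨h3, -⟩
    have := lt_B hs h3
    omega
  have besym : ∀ u v, be u v = be v u := by
    intro u v
    by_cases h1 : cl u ∈ s.R ∧ s.B ≤ cl v
    · rw [be1 u v h1.1 h1.2, be2 v u h1.1 h1.2]
    · by_cases h2 : cl v ∈ s.R ∧ s.B ≤ cl u
      · rw [be2 u v h2.1 h2.2, be1 v u h2.1 h2.2]
      · simp only [be]
        rw [if_neg h1, if_neg h2, if_neg h2, if_neg h1]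
  have hspec : ∀ u, s.B ≤ cl u → cl u - s.B < s.m := by
    intro u hu
    rcases hC.val u with h | h
    · have := lt_B hs h
      omega
    · omega
  have H1 : ∀ _i : ℕ × Finset ℕ, Disjoint (univ.filter fun v => cl v ∈ s.R)
      (univ.filter fun v => s.B ≤ cl v) := by
    intro i
    rw [Finset.disjoint_left]
    intro v h1 h2
    have h3 := lt_B hs (mem_filter.mp h1).2
    have h4 := (mem_filter.mp h2).2
    omega
  have H2 : ∀ u v, L.Adj u v →
      (u ∈ (univ.filter fun v => cl v ∈ s.R) ∧ v ∈ (univ.filter fun v => s.B ≤ cl v)) ∨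
      (u ∈ (univ.filter fun v => s.B ≤ cl v) ∧ v ∈ (univ.filter fun v => cl v ∈ s.R)) := by
    intro u v huv
    rcases hL.sup u v huv with h | h
    · left
      exact ⟨mem_filter.mpr ⟨mem_univ _, h.1⟩, mem_filter.mpr ⟨mem_univ _, h.2⟩⟩
    · right
      exact ⟨mem_filter.mpr ⟨mem_univ _, h.1⟩, mem_filter.mpr ⟨mem_univ _, h.2⟩⟩
  have H3 : ∀ (i : ℕ × Finset ℕ) u, (univ.filter (fun v => L.Adj u v ∧ be u v = i)).card ≤
      (lab s.st i.2).card := by
    rintro ⟨P, U⟩ u
    change (univ.filter (fun v => L.Adj u v ∧ be u v = (P, U))).card ≤ (lab s.st U).card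
    rcases hC.val u with hu | hu
    · -- row
      by_cases hne : ∃ v, L.Adj u v ∧ be u v = (P, U)
      · obtain ⟨v0, hv0, hb0⟩ := hne
        have hv0B : s.B ≤ cl v0 := by
          rcases hL.sup u v0 hv0 with h | h
          · exact h.2
          · have := lt_B hs hu
            omega
        rw [be1 u v0 hu hv0B, Prod.mk.injEq] at hb0
        obtain ⟨hP, hU⟩ := hb0
        have hPH : P < s.H := by
          rw [← hP]
          exact hs.prt _ (hspec v0 hv0B)
        rw [hP] at hU
        rw [← hU, ← hL.deg u hu P hPH]
        refine le_trans (card_cells cl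
          (((range s.m).filter (fun y => s.part y = P)).image (fun y => s.B + y)) _
          (fun v => L.Adj u v) ?_) ?_
        · rintro v ⟨h1, h2⟩
          refine ⟨?_, h1⟩
          have hvB : s.B ≤ cl v := by
            rcases hL.sup u v h1 with h | h
            · exact h.2
            · have := lt_B hs hu
              omega
          rw [be1 u v hu hvB, Prod.mk.injEq] at h2
          rw [mem_image]
          refine ⟨cl v - s.B, mem_filter.mpr ⟨mem_range.mpr (hspec v hvB), h2.1⟩, by omega⟩
        · rw [Finset.sum_image]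
          · exact le_of_eq rfl
          · intro a _ b _ hab
            have : s.B + a = s.B + b := hab
            omega
      · have : (univ.filter (fun v => L.Adj u v ∧ be u v = (P, U))) = ∅ := by
          rw [Finset.filter_eq_empty_iff]
          intro v _ hv
          exact hne ⟨v, hv⟩
        rw [this]
        simp
    · -- special vertex
      by_cases hne : ∃ v, L.Adj u v ∧ be u v = (P, U)
      · obtain ⟨v0, hv0, hb0⟩ := hne
        have hrow : ∀ v, L.Adj u v → cl v ∈ s.R := by
          intro v hv
          rcases hL.sup u v hv with h | h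
          · have := lt_B hs h.1
            omega
          · exact h.2
        rw [be2 u v0 (hrow v0 hv0) hu.1, Prod.mk.injEq] at hb0
        obtain ⟨hP, hU⟩ := hb0
        have hPH : P < s.H := by
          rw [← hP]
          exact hs.prt _ (hspec u hu.1)
        rw [hP] at hU
        have h4 := hs.S4 P hPH (cl v0) (hrow v0 hv0)
        rw [hU] at h4
        have h5 : ((univ.filter (fun v => L.Adj u v ∧ be u v = (P, U))).card : ℝ) ≤
            (lab s.st U).card := by
          refine le_trans ?_ h4
          have h6 := card_cells cl (s.R.filter fun b => s.S P b = U)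
            (fun v => L.Adj u v ∧ be u v = (P, U)) (fun v => L.Adj u v) (by
              rintro v ⟨h1, h2⟩
              refine ⟨mem_filter.mpr ⟨hrow v h1, ?_⟩, h1⟩
              rw [be2 u v (hrow v h1) hu.1, Prod.mk.injEq, hP] at h2
              exact h2.2)
          calc ((univ.filter (fun v => L.Adj u v ∧ be u v = (P, U))).card : ℝ)
              ≤ ((∑ i ∈ s.R.filter fun b => s.S P b = U,
                  ((cell cl i).filter (fun v => L.Adj u v)).card : ℕ) : ℝ) := by exact_mod_cast h6
            _ = ∑ i ∈ s.R.filter fun b => s.S P b = U, (nb L (cell cl i) u : ℝ) := by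
                push_cast
                rfl
            _ ≤ ∑ i ∈ s.R.filter fun b => s.S P b = U, 16 * s.ρ2 * s.μ * D := by
                apply Finset.sum_le_sum
                intro a ha
                exact hL.rig u hu.1 a (mem_filter.mp ha).1
            _ = ((s.R.filter fun b => s.S P b = U).card : ℝ) * (16 * s.ρ2 * s.μ) * D := by
                rw [Finset.sum_const, nsmul_eq_mul]
                ring
        exact_mod_cast h5
      · have : (univ.filter (fun v => L.Adj u v ∧ be u v = (P, U))) = ∅ := by
          rw [Finset.filter_eq_empty_iff]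
          intro v _ hv
          exact hne ⟨v, hv⟩
        rw [this]
        simp
  have H4 : ∀ u v w, L.Adj u v → L.Adj u w → be u v ≠ be u w →
      Disjoint (lab s.st (be u v).2) (lab s.st (be u w).2) := by
    intro u v w huv huw hne
    apply lab_disj hmono
    rcases hC.val u with hu | hu
    · have hsp : ∀ v, L.Adj u v → s.B ≤ cl v := by
        intro v hv
        rcases hL.sup u v hv with h | h
        · exact h.2
        · have := lt_B hs hu
          omega
      have hv := hsp v huv
      have hw := hsp w huw
      rw [be1 u v hu hv, be1 u w hu hw] at hne ⊢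
      have hPQ : s.part (cl v - s.B) ≠ s.part (cl w - s.B) := by
        intro h
        apply hne
        rw [h]
      exact hs.S2 _ (hs.prt _ (hspec v hv)) _ (hs.prt _ (hspec w hw)) hPQ _ hu
    · have hrow : ∀ v, L.Adj u v → cl v ∈ s.R := by
        intro v hv
        rcases hL.sup u v hv with h | h
        · have := lt_B hs h.1
          omega
        · exact h.2
      rw [be2 u v (hrow v huv) hu.1, be2 u w (hrow w huw) hu.1] at hne ⊢
      rcases hs.S3 _ (hs.prt _ (hspec u hu.1)) _ (hrow v huv) _ (hrow w huw) with h | h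
      · exfalso
        apply hne
        rw [h]
      · exact h
  obtain ⟨g, g1, g2, g3⟩ := hB V L (ℕ × Finset ℕ) be (fun i => lab s.st i.2)
    (fun _ => univ.filter fun v => cl v ∈ s.R) (fun _ => univ.filter fun v => s.B ≤ cl v)
    besym H1 H2 (fun i u => filter_inst (H3 i u)) H4
  refine ⟨g, g1, ?_, g3⟩
  intro z u hzu hz
  have hu : s.B ≤ cl u := by
    rcases hL.sup z u hzu with h | h
    · exact h.2
    · have := lt_B hs hz
      omega
  have := g2 z u hzu
  rw [be1 z u hz hu] at this
  exact this

end Pool.Agent.H87.HX
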